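import Pool.Agent.U979.RG.Fin
import Pool.Agent.H301R2.SSE.Forms
import Pool.Agent.H297R2.InBakerThm

/-!
# Rigidity: the complex logarithm
-/

set_option autoImplicit false

namespace Pool.Agent.U979.RG

open Pool.Agent.U979.GX
open Pool.Agent.H301R2.SSE (Lt Lt_log strong_six)

theorem mem_Cs_complex {x : ℂ} : x ∈ Cs (algebraicClosure ℚ ℂ) ℂ ↔ IsAlgebraic ℚ x := by
  rw [mem_Cs]
  constructor
  · rintro ⟨c, rfl⟩
    exact mem_algebraicClosure_iff.mp c.2
  · intro h
    exact ⟨⟨x, mem_algebraicClosure_iff.mpr h⟩, rfl⟩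

theorem six_complex : Six (F := algebraicClosure ℚ ℂ) Lt := by
  intro ρ hρ w hw h1 h2
  refine strong_six ![1, ρ] w ?_ ?_ ?_
  · intro a b ha hb hab
    simp only [Matrix.cons_val_zero, Matrix.cons_val_one, mul_one] at hab
    exact lin_zero hρ (mem_Cs_complex.mpr ha) (mem_Cs_complex.mpr hb) hab
  · intro c hc h j
    have h3 := Fintype.linearIndependent_iff.mp hw
      (fun j => ⟨c j, mem_algebraicClosure_iff.mpr (hc j)⟩) (by
        rw [← h]
        exact Finset.sum_congr rfl fun j _ => by rw [Algebra.smul_def]; rfl) j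
    exact congrArg Subtype.val h3
  · intro i j
    fin_cases i
    · simpa using h1 j
    · exact h2 j

/-- the logarithms of algebraic numbers -/
def logA : Submodule ℚ ℂ where
  carrier := {z | IsAlgebraic ℚ (Complex.exp z)}
  add_mem' := by
    intro a b ha hb
    show IsAlgebraic ℚ (Complex.exp (a + b))
    rw [Complex.exp_add]
    exact IsAlgebraic.mul ha hb
  zero_mem' := by
    show IsAlgebraic ℚ (Complex.exp 0)
    rw [Complex.exp_zero]
    exact isAlgebraic_one
  smul_mem' := by
    intro q z hz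
    show IsAlgebraic ℚ (Complex.exp (q • z))
    apply IsAlgebraic.of_pow q.den_pos
    have h1 : Complex.exp (q • z) ^ q.den = Complex.exp z ^ q.num := by
      rw [← Complex.exp_nat_mul, ← Complex.exp_int_mul]
      congr 1
      rw [Rat.smul_def, ← mul_assoc]
      congr 1
      have h2 := Rat.mul_den_eq_num q
      have h3 : ((q * q.den : ℚ) : ℂ) = ((q.num : ℚ) : ℂ) := by rw [h2]
      push_cast at h3
      rw [mul_comm]
      exact h3
    rw [h1]
    have hz' : IsAlgebraic ℚ (Complex.exp z) := hz
    rcases Int.eq_nat_or_neg q.num with ⟨n, h | h⟩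
    · rw [h, zpow_natCast]
      exact hz'.pow n
    · rw [h, zpow_neg, zpow_natCast]
      exact (hz'.pow n).inv

theorem mem_logA {z : ℂ} : z ∈ logA ↔ IsAlgebraic ℚ (Complex.exp z) := Iff.rfl

theorem sys_complex : Sys (F := algebraicClosure ℚ ℂ) Lt logA where
  six := six_complex
  sub := fun x hx => Lt_log hx
  baker := fun n v hv hli c hc h0 =>
    (Pool.Agent.H297R2.baker_inhom v hv hli 0 isAlgebraic_zero c
      (fun i => mem_Cs_complex.mp (hc i)) (by rw [zero_add]; exact h0)).2

end Pool.Agent.U979.RG
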