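import Pool.Agent.U979.GX.Core

/-!
# Rigidity of the counterexamples to the four exponentials conjecture

`F` is an algebraically closed field of characteristic zero, `K` an extension field, `S` a space over
`F` with the property of the six exponentials theorem, and `Λ ≤ S` a rational space for which
the theorem of Baker holds: elements of `Λ` which are linearly independent over the rational numbers
are linearly independent over `F`.
-/

set_option autoImplicit false

namespace Pool.Agent.U979.RG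

open Finset Pool.Agent.U979.GX

variable {F K : Type*} [Field F] [Field K] [Algebra F K] [CharZero K]

/-- the setting -/
structure Sys (S : Submodule F K) (Λ : Submodule ℚ K) : Prop where
  six : Six S
  sub : ∀ x ∈ Λ, x ∈ S
  baker : ∀ (n : ℕ) (v : Fin n → K), (∀ i, v i ∈ Λ) → LinearIndependent ℚ v →
    ∀ c : Fin n → K, (∀ i, c i ∈ Cs F K) → ∑ i, c i * v i = 0 → ∀ i, c i = 0

/-- a rational element of `K` -/
def IsRat (x : K) : Prop := ∃ q : ℚ, (q : K) = x

theorem IsRat.mul {x y : K} (hx : IsRat x) (hy : IsRat y) : IsRat (x * y) := by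
  obtain ⟨a, rfl⟩ := hx
  obtain ⟨b, rfl⟩ := hy
  exact ⟨a * b, by push_cast; ring⟩

theorem IsRat.add {x y : K} (hx : IsRat x) (hy : IsRat y) : IsRat (x + y) := by
  obtain ⟨a, rfl⟩ := hx
  obtain ⟨b, rfl⟩ := hy
  exact ⟨a + b, by push_cast; ring⟩

theorem IsRat.sub {x y : K} (hx : IsRat x) (hy : IsRat y) : IsRat (x - y) := by
  obtain ⟨a, rfl⟩ := hx
  obtain ⟨b, rfl⟩ := hy
  exact ⟨a - b, by push_cast; ring⟩

omit [CharZero K] in
theorem IsRat.neg {x : K} (hx : IsRat x) : IsRat (-x) := by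
  obtain ⟨a, rfl⟩ := hx
  exact ⟨-a, by push_cast; ring⟩

theorem IsRat.div {x y : K} (hx : IsRat x) (hy : IsRat y) : IsRat (x / y) := by
  obtain ⟨a, rfl⟩ := hx
  obtain ⟨b, rfl⟩ := hy
  exact ⟨a / b, by push_cast; ring⟩

omit [CharZero K] in
theorem isRat_zero : IsRat (0 : K) := ⟨0, by push_cast; ring⟩

omit [CharZero K] in
theorem rat_mem_Cs (q : ℚ) : (q : K) ∈ Cs F K := SubfieldClass.ratCast_mem _ q

/-- a rational linear relation between elements of `Λ` comes from one over the constants -/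
theorem rat_dep {S : Submodule F K} {Λ : Submodule ℚ K} (h : Sys S Λ) {n : ℕ} (v : Fin n → K)
    (hv : ∀ i, v i ∈ Λ) (c : Fin n → K) (hc : ∀ i, c i ∈ Cs F K) (h0 : ∑ i, c i * v i = 0)
    (hne : ∃ i, c i ≠ 0) : ∃ q : Fin n → ℚ, (∃ i, q i ≠ 0) ∧ ∑ i, (q i : K) * v i = 0 := by
  by_contra hcon
  push Not at hcon
  have hli : LinearIndependent ℚ v := by
    rw [Fintype.linearIndependent_iff]
    intro g hg
    by_contra hex
    push Not at hex
    refine hcon g hex ?_
    rw [← hg]
    exact Finset.sum_congr rfl fun i _ => by rw [Rat.smul_def]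
  obtain ⟨i, hi⟩ := hne
  exact hi (h.baker n v hv hli c hc h0 i)

/-- coordinates of elements of `Λ` are rational -/
theorem rat_coord {S : Submodule F K} {Λ : Submodule ℚ K} (h : Sys S Λ) {n : ℕ} (e : Fin n → K)
    (he : ∀ i, e i ∈ Λ)
    (hind : ∀ c : Fin n → K, (∀ i, c i ∈ Cs F K) → ∑ i, c i * e i = 0 → ∀ i, c i = 0)
    {z : K} (hz : z ∈ Λ) (c : Fin n → K) (hc : ∀ i, c i ∈ Cs F K) (hzc : z = ∑ i, c i * e i) :
    ∀ i, IsRat (c i) := by
  obtain ⟨q, ⟨i0, hi0⟩, hq⟩ := rat_dep h (Fin.cons z e : Fin (n + 1) → K)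
    (fun i => by
      refine Fin.cases ?_ (fun j => ?_) i
      · simpa using hz
      · simpa using he j)
    (Fin.cons (-1) c : Fin (n + 1) → K)
    (fun i => by
      refine Fin.cases ?_ (fun j => ?_) i
      · simpa using (Cs F K).neg_mem (Cs F K).one_mem
      · simpa using hc j)
    (by
      rw [Fin.sum_univ_succ]
      simp only [Fin.cons_zero, Fin.cons_succ]
      rw [← hzc]
      ring)
    ⟨0, by simp⟩
  rw [Fin.sum_univ_succ] at hq
  simp only [Fin.cons_zero, Fin.cons_succ] at hq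
  have hq0 : q 0 ≠ 0 := by
    intro h0
    have h1 : ∀ i, ((q (Fin.succ i) : ℚ) : K) = 0 := hind (fun i => (q (Fin.succ i) : K))
      (fun i => rat_mem_Cs _) (by
        rw [h0] at hq
        simpa using hq)
    apply hi0
    refine Fin.cases h0 (fun j => ?_) i0
    exact_mod_cast h1 j
  have hq0' : (q 0 : K) ≠ 0 := by exact_mod_cast hq0
  have h2 : ∀ i, (q 0 : K) * c i + q (Fin.succ i) = 0 := hind
    (fun i => (q 0 : K) * c i + q (Fin.succ i))
    (fun i => (Cs F K).add_mem ((Cs F K).mul_mem (rat_mem_Cs _) (hc i)) (rat_mem_Cs _)) (by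
      rw [← hq, hzc, Finset.mul_sum, ← Finset.sum_add_distrib]
      exact Finset.sum_congr rfl fun i _ => by ring)
  intro i
  refine ⟨-q (Fin.succ i) / q 0, ?_⟩
  push_cast
  rw [div_eq_iff hq0']
  linear_combination -h2 i

/-- a counterexample -/
structure Ctr (Λ : Submodule ℚ K) (M : Matrix (Fin 2) (Fin 2) K) : Prop where
  mem : ∀ i j, M i j ∈ Λ
  rows : ∀ a b : ℚ, (∀ j, (a : K) * M 0 j + b * M 1 j = 0) → a = 0 ∧ b = 0
  cols : ∀ a b : ℚ, (∀ i, (a : K) * M i 0 + b * M i 1 = 0) → a = 0 ∧ b = 0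
  det : M 0 0 * M 1 1 = M 0 1 * M 1 0

theorem Ctr.zero {Λ : Submodule ℚ K} {M : Matrix (Fin 2) (Fin 2) K} (h : Ctr Λ M) :
    M 0 0 ≠ 0 := by
  intro h0
  have h1 : M 0 1 * M 1 0 = 0 := by rw [← h.det, h0, zero_mul]
  rcases mul_eq_zero.mp h1 with h2 | h2
  · have := (h.rows 1 0 (fun j => by fin_cases j <;> simp [h0, h2])).1
    exact one_ne_zero this
  · have := (h.cols 1 0 (fun i => by fin_cases i <;> simp [h0, h2])).1
    exact one_ne_zero this

theorem Ctr.exists {Λ : Submodule ℚ K} {M : Matrix (Fin 2) (Fin 2) K} (h : Ctr Λ M) :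
    M 0 1 = M 0 1 / M 0 0 * M 0 0 ∧ M 1 0 = M 1 0 / M 0 0 * M 0 0 ∧
      M 1 1 = M 0 1 / M 0 0 * (M 1 0 / M 0 0) * M 0 0 := by
  have h0 := h.zero
  refine ⟨by field_simp, by field_simp, ?_⟩
  have := h.det
  field_simp
  linear_combination this

theorem Ctr.slope {S : Submodule F K} {Λ : Submodule ℚ K} (hs : Sys S Λ)
    {M : Matrix (Fin 2) (Fin 2) K} (h : Ctr Λ M) : M 0 1 / M 0 0 ∉ Cs F K := by
  intro hC
  have h0 := h.zero
  obtain ⟨h1, h2, h3⟩ := h.exists
  obtain ⟨q, ⟨i, hi⟩, hq⟩ := rat_dep hs (n := 2) ![M 0 0, M 0 1]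
    (fun i => by fin_cases i <;> simp [h.mem]) ![M 0 1 / M 0 0, -1]
    (fun i => by
      fin_cases i
      · exact hC
      · exact (Cs F K).neg_mem (Cs F K).one_mem)
    (by
      rw [Fin.sum_univ_two]
      simp only [Matrix.cons_val_zero, Matrix.cons_val_one]
      linear_combination -h1)
    ⟨1, by simp⟩
  rw [Fin.sum_univ_two] at hq
  simp only [Matrix.cons_val_zero, Matrix.cons_val_one] at hq
  have h4 := h.cols (q 0) (q 1) (fun i => by
    fin_cases i
    · exact hq
    · show (q 0 : K) * M 1 0 + q 1 * M 1 1 = 0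
      have h5 : M 0 0 * ((q 0 : K) * M 1 0 + q 1 * M 1 1) =
          M 1 0 * ((q 0 : K) * M 0 0 + q 1 * M 0 1) := by
        linear_combination (q 1 : K) * h.det
      rw [hq, mul_zero] at h5
      exact (mul_eq_zero.mp h5).resolve_left h0)
  fin_cases i
  · exact hi h4.1
  · exact hi h4.2

theorem Ctr.transpose {Λ : Submodule ℚ K} {M : Matrix (Fin 2) (Fin 2) K} (h : Ctr Λ M) :
    Ctr Λ M.transpose where
  mem i j := h.mem j i
  rows a b hab := h.cols a b fun i => hab i
  cols a b hab := h.rows a b fun i => hab i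
  det := by
    have := h.det
    simp only [Matrix.transpose_apply]
    linear_combination this

omit [CharZero K] in
/-- the second step: the first column of a counterexample with a given slope -/
theorem plane {S : Submodule F K} (hS : Six S) {ρ σ x y : K} (hρ : ρ ∉ Cs F K)
    (hσ : σ ∉ Cs F K) (hx0 : x ≠ 0) (hx : x ∈ S) (hx1 : ρ * x ∈ S) (hx2 : σ * x ∈ S)
    (hx3 : ρ * σ * x ∈ S) (hy : y ∈ S) (hy1 : ρ * y ∈ S) :
    ∃ l m : K, l ∈ Cs F K ∧ m ∈ Cs F K ∧ y = x * (l + m * σ) := by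
  obtain ⟨α, β, γ, hα, hβ, hγ, hne, h0⟩ := dep3 hS hρ hx hx2 hy hx1 (by rwa [← mul_assoc]) hy1
  have hγ0 : γ ≠ 0 := by
    intro hγ0
    rw [hγ0, zero_mul, add_zero] at h0
    have h1 : α + β * σ = 0 := by
      have h2 : x * (α + β * σ) = 0 := by linear_combination h0
      exact (mul_eq_zero.mp h2).resolve_left hx0
    have hβ0 : β = 0 := by
      by_contra hβ0
      apply hσ
      have : σ = -α / β := by
        field_simp
        linear_combination h1
      rw [this]
      exact (Cs F K).div_mem ((Cs F K).neg_mem hα) hβ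
    have hα0 : α = 0 := by simpa [hβ0] using h1
    rcases hne with h | h | h
    · exact h hα0
    · exact h hβ0
    · exact h hγ0
  refine ⟨-α / γ, -β / γ, (Cs F K).div_mem ((Cs F K).neg_mem hα) hγ,
    (Cs F K).div_mem ((Cs F K).neg_mem hβ) hγ, ?_⟩
  field_simp
  linear_combination h0

omit [CharZero K] in
/-- a linear relation over the constants between `1` and an element which is not constant -/
theorem lin_zero {ρ a b : K} (hρ : ρ ∉ Cs F K) (ha : a ∈ Cs F K) (hb : b ∈ Cs F K)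
    (h : a + b * ρ = 0) : a = 0 ∧ b = 0 := by
  have hb0 : b = 0 := by
    by_contra hb0
    apply hρ
    have : ρ = -a / b := by
      field_simp
      linear_combination h
    rw [this]
    exact (Cs F K).div_mem ((Cs F K).neg_mem ha) hb
  exact ⟨by simpa [hb0] using h, hb0⟩

/-- a counterexample to the strong four exponentials conjecture -/
structure CtrS (S : Submodule F K) (M : Matrix (Fin 2) (Fin 2) K) : Prop where
  mem : ∀ i j, M i j ∈ S
  zero : M 0 0 ≠ 0
  slope : M 0 1 / M 0 0 ∉ Cs F K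
  slope' : M 1 0 / M 0 0 ∉ Cs F K
  det : M 0 0 * M 1 1 = M 0 1 * M 1 0

omit [CharZero K] in
theorem CtrS.exists {S : Submodule F K} {M : Matrix (Fin 2) (Fin 2) K} (h : CtrS S M) :
    M 0 1 = M 0 1 / M 0 0 * M 0 0 ∧ M 1 0 = M 1 0 / M 0 0 * M 0 0 ∧
      M 1 1 = M 0 1 / M 0 0 * (M 1 0 / M 0 0) * M 0 0 := by
  have h0 := h.zero
  refine ⟨by field_simp, by field_simp, ?_⟩
  have := h.det
  field_simp
  linear_combination this

theorem Ctr.strong {S : Submodule F K} {Λ : Submodule ℚ K} (hs : Sys S Λ)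
    {M : Matrix (Fin 2) (Fin 2) K} (h : Ctr Λ M) : CtrS S M where
  mem i j := hs.sub _ (h.mem i j)
  zero := h.zero
  slope := h.slope hs
  slope' := h.transpose.slope hs
  det := h.det

omit [CharZero K] in
/-- matrices with independent rows and columns over `F` -/
theorem CtrS.of_indep {S : Submodule F K} {M : Matrix (Fin 2) (Fin 2) K} (hmem : ∀ i j, M i j ∈ S)
    (hr : LinearIndependent F M.row) (hc : LinearIndependent F M.col) (hdet : M.det = 0) :
    CtrS S M := by
  have hr' := Fintype.linearIndependent_iff.mp hr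
  have hc' := Fintype.linearIndependent_iff.mp hc
  have hd : M 0 0 * M 1 1 = M 0 1 * M 1 0 := by
    rw [Matrix.det_fin_two] at hdet
    linear_combination hdet
  have rows : ∀ a b : F, (∀ j, algebraMap F K a * M 0 j + algebraMap F K b * M 1 j = 0) →
      a = 0 ∧ b = 0 := by
    intro a b hab
    have h1 := hr' ![a, b] (by
      rw [Fin.sum_univ_two]
      funext j
      simp only [Matrix.cons_val_zero, Matrix.cons_val_one, Pi.add_apply, Pi.smul_apply,
        Matrix.row_apply, Pi.zero_apply, Algebra.smul_def]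
      exact hab j)
    exact ⟨h1 0, h1 1⟩
  have cols : ∀ a b : F, (∀ i, algebraMap F K a * M i 0 + algebraMap F K b * M i 1 = 0) →
      a = 0 ∧ b = 0 := by
    intro a b hab
    have h1 := hc' ![a, b] (by
      rw [Fin.sum_univ_two]
      funext j
      simp only [Matrix.cons_val_zero, Matrix.cons_val_one, Pi.add_apply, Pi.smul_apply,
        Matrix.col_apply, Pi.zero_apply, Algebra.smul_def]
      exact hab j)
    exact ⟨h1 0, h1 1⟩
  have h00 : M 0 0 ≠ 0 := by
    intro h0
    have h1 : M 0 1 * M 1 0 = 0 := by rw [← hd, h0, zero_mul]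
    rcases mul_eq_zero.mp h1 with h2 | h2
    · have := (rows 1 0 (fun j => by fin_cases j <;> simp [h0, h2])).1
      exact one_ne_zero this
    · have := (cols 1 0 (fun i => by fin_cases i <;> simp [h0, h2])).1
      exact one_ne_zero this
  refine ⟨hmem, h00, ?_, ?_, hd⟩
  · intro hC
    obtain ⟨c, hc⟩ := mem_Cs.mp hC
    have h1 : M 0 1 = algebraMap F K c * M 0 0 := by rw [hc]; field_simp
    have := (cols c (-1) (fun i => by
      rw [map_neg, map_one]
      fin_cases i
      · show algebraMap F K c * M 0 0 + -1 * M 0 1 = 0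
        rw [h1]; ring
      · show algebraMap F K c * M 1 0 + -1 * M 1 1 = 0
        have h2 : M 0 0 * (algebraMap F K c * M 1 0 + -1 * M 1 1) = 0 := by
          linear_combination (-1 : K) * hd - M 1 0 * h1
        exact (mul_eq_zero.mp h2).resolve_left h00)).2
    exact (neg_ne_zero.mpr one_ne_zero) this
  · intro hC
    obtain ⟨c, hc⟩ := mem_Cs.mp hC
    have h1 : M 1 0 = algebraMap F K c * M 0 0 := by rw [hc]; field_simp
    have := (rows c (-1) (fun i => by
      rw [map_neg, map_one]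
      fin_cases i
      · show algebraMap F K c * M 0 0 + -1 * M 1 0 = 0
        rw [h1]; ring
      · show algebraMap F K c * M 0 1 + -1 * M 1 1 = 0
        have h2 : M 0 0 * (algebraMap F K c * M 0 1 + -1 * M 1 1) = 0 := by
          linear_combination (-1 : K) * hd - M 0 1 * h1
        exact (mul_eq_zero.mp h2).resolve_left h00)).2
    exact (neg_ne_zero.mpr one_ne_zero) this

omit [CharZero K] in
/-- the third step: the second matrix in terms of the first one -/
theorem formS {S : Submodule F K} (hsix : Six S)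
    {M N : Matrix (Fin 2) (Fin 2) K} (hM : CtrS S M) (hN : CtrS S N) {a b c d : K}
    (ha : a ∈ Cs F K) (hb : b ∈ Cs F K) (hc : c ∈ Cs F K) (hd : d ∈ Cs F K)
    (hne : ¬ (a = 0 ∧ b = 0 ∧ c = 0 ∧ d = 0))
    (h0 : a + b * (M 0 1 / M 0 0) + c * (N 0 1 / N 0 0) +
      d * (M 0 1 / M 0 0) * (N 0 1 / N 0 0) = 0) :
    a * d - b * c ≠ 0 ∧ ∃ l m : Fin 2 → K, (∀ i, l i ∈ Cs F K) ∧ (∀ i, m i ∈ Cs F K) ∧
      ∀ i, N i 0 = M 0 0 * (l i + m i * (M 1 0 / M 0 0)) *
          (-c / (a * d - b * c) + -d / (a * d - b * c) * (M 0 1 / M 0 0)) ∧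
        N i 1 = M 0 0 * (l i + m i * (M 1 0 / M 0 0)) *
          (a / (a * d - b * c) + b / (a * d - b * c) * (M 0 1 / M 0 0)) := by
  have hρ := hM.slope
  have hρ' := hN.slope
  have hσ := hM.slope'
  have hσ' := hN.slope'
  obtain ⟨e1, e2, e3⟩ := hM.exists
  obtain ⟨f1, f2, f3⟩ := hN.exists
  have hx0 := hM.zero
  have hn0 := hN.zero
  set ρ := M 0 1 / M 0 0 with hρd
  set σ := M 1 0 / M 0 0 with hσd
  set ρ' := N 0 1 / N 0 0 with hρ'd
  set σ' := N 1 0 / N 0 0 with hσ'd
  have hrow : ∀ i, N i 1 = ρ' * N i 0 := by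
    intro i
    fin_cases i
    · exact f1
    · show N 1 1 = ρ' * N 1 0
      rw [f3, f2]; ring
  have hN10 : N 1 0 ≠ 0 := by
    intro h
    rw [hσ'd, h, zero_div] at hσ'
    exact hσ' (Cs F K).zero_mem
  have hN0 : ∀ i, N i 0 ≠ 0 := by
    intro i
    fin_cases i
    · exact hn0
    · exact hN10
  -- the auxiliary elements
  have hw : ∀ i, ρ * (d * N i 1 + b * N i 0) = -(c * N i 1 + a * N i 0) := by
    intro i
    rw [hrow i]
    linear_combination N i 0 * h0
  have hmem : ∀ i j, N i j ∈ S := hN.mem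
  have hwS : ∀ i, d * N i 1 + b * N i 0 ∈ S := fun i =>
    S.add_mem (S_mul hd (hmem i 1)) (S_mul hb (hmem i 0))
  have hwS' : ∀ i, ρ * (d * N i 1 + b * N i 0) ∈ S := fun i => by
    rw [hw i]
    exact S.neg_mem (S.add_mem (S_mul hc (hmem i 1)) (S_mul ha (hmem i 0)))
  have hΔ : a * d - b * c ≠ 0 := by
    intro hΔ
    have hw0 : d * N 0 1 + b * N 0 0 ≠ 0 := by
      intro hw0
      have h1 : b + d * ρ' = 0 := by
        have h2 : N 0 0 * (b + d * ρ') = 0 := by
          rw [hrow 0] at hw0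
          linear_combination hw0
        exact (mul_eq_zero.mp h2).resolve_left hn0
      obtain ⟨hb0, hd0⟩ := lin_zero hρ' hb hd h1
      have h3 : a + c * ρ' = 0 := by
        rw [hb0, hd0] at h0
        linear_combination h0
      obtain ⟨ha0, hc0⟩ := lin_zero hρ' ha hc h3
      exact hne ⟨ha0, hb0, hc0, hd0⟩
    have h4 : (a + b * ρ) * (d * N 0 1 + b * N 0 0) = 0 := by
      linear_combination b * hw 0 + hΔ * N 0 1
    have h5 : (c + d * ρ) * (d * N 0 1 + b * N 0 0) = 0 := by
      linear_combination d * hw 0 - hΔ * N 0 0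
    obtain ⟨ha0, hb0⟩ := lin_zero hρ ha hb ((mul_eq_zero.mp h4).resolve_right hw0)
    obtain ⟨hc0, hd0⟩ := lin_zero hρ hc hd ((mul_eq_zero.mp h5).resolve_right hw0)
    exact hne ⟨ha0, hb0, hc0, hd0⟩
  refine ⟨hΔ, ?_⟩
  choose l m hl hm hlm using fun i => plane hsix hρ hσ hx0 (hM.mem 0 0)
    (by rw [← e1]; exact hM.mem 0 1) (by rw [← e2]; exact hM.mem 1 0)
    (by rw [← e3]; exact hM.mem 1 1) (hwS i) (hwS' i)
  refine ⟨l, m, hl, hm, fun i => ⟨?_, ?_⟩⟩
  · rw [← hlm i]
    have key : N i 0 * (a * d - b * c) = (d * N i 1 + b * N i 0) * (-c) +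
        (-d) * (ρ * (d * N i 1 + b * N i 0)) := by
      rw [hw i]; ring
    rw [eq_comm]
    calc (d * N i 1 + b * N i 0) * (-c / (a * d - b * c) + -d / (a * d - b * c) * ρ)
        = ((d * N i 1 + b * N i 0) * (-c) + (-d) * (ρ * (d * N i 1 + b * N i 0))) /
          (a * d - b * c) := by ring
      _ = N i 0 := by rw [← key, mul_div_assoc, div_self hΔ, mul_one]
  · rw [← hlm i]
    have key : N i 1 * (a * d - b * c) = (d * N i 1 + b * N i 0) * a +
        b * (ρ * (d * N i 1 + b * N i 0)) := by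
      rw [hw i]; ring
    rw [eq_comm]
    calc (d * N i 1 + b * N i 0) * (a / (a * d - b * c) + b / (a * d - b * c) * ρ)
        = ((d * N i 1 + b * N i 0) * a + b * (ρ * (d * N i 1 + b * N i 0))) /
          (a * d - b * c) := by ring
      _ = N i 1 := by rw [← key, mul_div_assoc, div_self hΔ, mul_one]

/-- the second matrix in terms of the first one -/
theorem form {S : Submodule F K} {Λ : Submodule ℚ K} (hs : Sys S Λ)
    {M N : Matrix (Fin 2) (Fin 2) K} (hM : Ctr Λ M) (hN : Ctr Λ N) {a b c d : K}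
    (ha : a ∈ Cs F K) (hb : b ∈ Cs F K) (hc : c ∈ Cs F K) (hd : d ∈ Cs F K)
    (hne : ¬ (a = 0 ∧ b = 0 ∧ c = 0 ∧ d = 0))
    (h0 : a + b * (M 0 1 / M 0 0) + c * (N 0 1 / N 0 0) +
      d * (M 0 1 / M 0 0) * (N 0 1 / N 0 0) = 0) :
    a * d - b * c ≠ 0 ∧ ∃ l m : Fin 2 → K, (∀ i, l i ∈ Cs F K) ∧ (∀ i, m i ∈ Cs F K) ∧
      ∀ i, N i 0 = M 0 0 * (l i + m i * (M 1 0 / M 0 0)) *
          (-c / (a * d - b * c) + -d / (a * d - b * c) * (M 0 1 / M 0 0)) ∧
        N i 1 = M 0 0 * (l i + m i * (M 1 0 / M 0 0)) *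
          (a / (a * d - b * c) + b / (a * d - b * c) * (M 0 1 / M 0 0)) :=
  formS hs.six (hM.strong hs) (hN.strong hs) ha hb hc hd hne h0

/-- **Strong rigidity.** -/
theorem rigidS {S : Submodule F K} (hsix : Six S)
    {M N : Matrix (Fin 2) (Fin 2) K} (hM : CtrS S M) (hN : CtrS S N) {a b c d : K}
    (ha : a ∈ Cs F K) (hb : b ∈ Cs F K) (hc : c ∈ Cs F K) (hd : d ∈ Cs F K)
    (hne : ¬ (a = 0 ∧ b = 0 ∧ c = 0 ∧ d = 0))
    (h0 : a + b * (M 0 1 / M 0 0) + c * (N 0 1 / N 0 0) +
      d * (M 0 1 / M 0 0) * (N 0 1 / N 0 0) = 0) :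
    ∃ A B : Matrix (Fin 2) (Fin 2) F, A.det ≠ 0 ∧ B.det ≠ 0 ∧
      N = A.map (algebraMap F K) * M * B.map (algebraMap F K) := by
  obtain ⟨hΔ, l, m, hl, hm, hN'⟩ := formS hsix hM hN ha hb hc hd hne h0
  have hσ := hM.slope'
  have hσ' := hN.slope'
  obtain ⟨e1, e2, e3⟩ := hM.exists
  have hx0 := hM.zero
  have hn0 := hN.zero
  set ρ := M 0 1 / M 0 0 with hρd
  set σ := M 1 0 / M 0 0 with hσd
  set Δ := a * d - b * c with hΔd
  choose l' hl' using fun i => mem_Cs.mp (hl i)
  choose m' hm' using fun i => mem_Cs.mp (hm i)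
  obtain ⟨a', rfl⟩ := mem_Cs.mp ha
  obtain ⟨b', rfl⟩ := mem_Cs.mp hb
  obtain ⟨c', rfl⟩ := mem_Cs.mp hc
  obtain ⟨d', rfl⟩ := mem_Cs.mp hd
  have hΔ' : algebraMap F K (a' * d' - b' * c') = Δ := by rw [hΔd]; simp
  have hΔ0 : a' * d' - b' * c' ≠ 0 := by
    intro h
    rw [h, map_zero] at hΔ'
    exact hΔ hΔ'.symm
  refine ⟨Matrix.of fun i => ![l' i, m' i],
    !![-c' / (a' * d' - b' * c'), a' / (a' * d' - b' * c');
      -d' / (a' * d' - b' * c'), b' / (a' * d' - b' * c')], ?_, ?_, ?_⟩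
  · rw [Matrix.det_fin_two]
    simp only [Matrix.of_apply, Matrix.cons_val_zero, Matrix.cons_val_one]
    intro hdet
    have hK : l 0 * m 1 - m 0 * l 1 = 0 := by
      rw [← hl' 0, ← hm' 1, ← hm' 0, ← hl' 1, ← map_mul, ← map_mul, ← map_sub, hdet, map_zero]
    have h00 := (hN' 0).1
    have h10 := (hN' 1).1
    set W := -(algebraMap F K) c' / Δ + -(algebraMap F K) d' / Δ * ρ with hW
    have hlm : l 0 ≠ 0 ∨ m 0 ≠ 0 := by
      by_contra hcon
      push Not at hcon
      apply hn0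
      rw [h00, hcon.1, hcon.2]
      ring
    have hmul : ∀ κ : K, κ ∈ Cs F K → N 1 0 = κ * N 0 0 → False := by
      intro κ hκ h
      apply hσ'
      rw [h, mul_div_assoc, div_self hn0, mul_one]
      exact hκ
    by_cases hl0 : l 0 = 0
    · have hm0 : m 0 ≠ 0 := hlm.resolve_left (fun h => h hl0)
      have hl1 : l 1 = 0 := by
        have : m 0 * l 1 = 0 := by rw [hl0] at hK; linear_combination -hK
        exact (mul_eq_zero.mp this).resolve_left hm0
      refine hmul (m 1 / m 0) ((Cs F K).div_mem (hm 1) (hm 0)) ?_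
      rw [h00, h10, hl0, hl1]
      field_simp
      ring
    · refine hmul (l 1 / l 0) ((Cs F K).div_mem (hl 1) (hl 0)) ?_
      rw [h00, h10, div_mul_eq_mul_div, eq_div_iff hl0]
      linear_combination (M 0 0 * W * σ) * hK
  · rw [Matrix.det_fin_two]
    simp only [Matrix.of_apply, Matrix.cons_val_zero, Matrix.cons_val_one, Matrix.cons_val',
      Matrix.cons_val_fin_one]
    have : -c' / (a' * d' - b' * c') * (b' / (a' * d' - b' * c')) -
        a' / (a' * d' - b' * c') * (-d' / (a' * d' - b' * c')) = 1 / (a' * d' - b' * c') := by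
      rw [div_mul_div_comm, div_mul_div_comm, ← sub_div, div_eq_div_iff (mul_ne_zero hΔ0 hΔ0) hΔ0]
      ring
    rw [this]
    exact one_div_ne_zero hΔ0
  · have k1 : algebraMap F K (-c' / (a' * d' - b' * c')) = -(algebraMap F K) c' / Δ := by
      rw [map_div₀, map_neg, hΔ']
    have k2 : algebraMap F K (-d' / (a' * d' - b' * c')) = -(algebraMap F K) d' / Δ := by
      rw [map_div₀, map_neg, hΔ']
    have k3 : algebraMap F K (a' / (a' * d' - b' * c')) = (algebraMap F K) a' / Δ := by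
      rw [map_div₀, hΔ']
    have k4 : algebraMap F K (b' / (a' * d' - b' * c')) = (algebraMap F K) b' / Δ := by
      rw [map_div₀, hΔ']
    ext i j
    fin_cases j
    · simp only [Matrix.mul_apply, Fin.sum_univ_two, Matrix.map_apply, Matrix.of_apply,
        Matrix.cons_val_zero, Matrix.cons_val_one, hl', hm']
      refine (hN' i).1.trans ?_
      show _ = (l i * M 0 0 + m i * M 1 0) * algebraMap F K (-c' / (a' * d' - b' * c')) +
        (l i * M 0 1 + m i * M 1 1) * algebraMap F K (-d' / (a' * d' - b' * c'))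
      rw [k1, k2]
      linear_combination (-(-(algebraMap F K) c' / Δ) * m i) * e2 -
        (-(algebraMap F K) d' / Δ * l i) * e1 - (-(algebraMap F K) d' / Δ * m i) * e3
    · simp only [Matrix.mul_apply, Fin.sum_univ_two, Matrix.map_apply, Matrix.of_apply,
        Matrix.cons_val_zero, Matrix.cons_val_one, hl', hm']
      refine (hN' i).2.trans ?_
      show _ = (l i * M 0 0 + m i * M 1 0) * algebraMap F K (a' / (a' * d' - b' * c')) +
        (l i * M 0 1 + m i * M 1 1) * algebraMap F K (b' / (a' * d' - b' * c'))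
      rw [k3, k4]
      linear_combination (-((algebraMap F K) a' / Δ) * m i) * e2 -
        ((algebraMap F K) b' / Δ * l i) * e1 - ((algebraMap F K) b' / Δ * m i) * e3

end Pool.Agent.U979.RG
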