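import Pool.Agent.U979.RG.Core

/-!
# Rigidity of the counterexamples to the four exponentials conjecture: the theorem
-/

set_option autoImplicit false

namespace Pool.Agent.U979.RG

open Finset Pool.Agent.U979.GX

variable {F K : Type*} [Field F] [Field K] [Algebra F K] [CharZero K]

omit [Field F] [Algebra F K] in
/-- products of two linear forms with rational coefficients -/
theorem split_rat {f0 f1 a0 a1 b0 b1 : K} (hΔ : a0 * b1 - a1 * b0 ≠ 0) (hf : f0 ≠ 0 ∨ f1 ≠ 0)
    (ha0 : IsRat (f0 * a0)) (ha : IsRat (f0 * a1 + f1 * a0)) (ha1 : IsRat (f1 * a1))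
    (hb0 : IsRat (f0 * b0)) (hb : IsRat (f0 * b1 + f1 * b0)) (hb1 : IsRat (f1 * b1)) :
    (IsRat (f0 * a1) ∧ IsRat (f1 * a0)) ∧ IsRat (f0 * b1) ∧ IsRat (f1 * b0) := by
  by_cases h0 : f0 = 0
  · subst h0
    simp only [zero_mul, zero_add] at ha hb ⊢
    exact ⟨⟨isRat_zero, ha⟩, isRat_zero, hb⟩
  have h1 : IsRat (f0 ^ 2 * (a0 * b1 - a1 * b0)) := by
    have : f0 ^ 2 * (a0 * b1 - a1 * b0) =
        (f0 * a0) * (f0 * b1 + f1 * b0) - (f0 * b0) * (f0 * a1 + f1 * a0) := by ring
    rw [this]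
    exact (ha0.mul hb).sub (hb0.mul ha)
  have h2 : IsRat (f0 * f1 * (a0 * b1 - a1 * b0)) := by
    have : f0 * f1 * (a0 * b1 - a1 * b0) = (f0 * a0) * (f1 * b1) - (f1 * a1) * (f0 * b0) := by
      ring
    rw [this]
    exact (ha0.mul hb1).sub (ha1.mul hb0)
  have h3 : IsRat (f1 / f0) := by
    have : f1 / f0 = (f0 * f1 * (a0 * b1 - a1 * b0)) / (f0 ^ 2 * (a0 * b1 - a1 * b0)) := by
      field_simp
    rw [this]
    exact h2.div h1
  have h4 : IsRat (f1 * a0) := by
    have : f1 * a0 = f1 / f0 * (f0 * a0) := by field_simp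
    rw [this]
    exact h3.mul ha0
  have h5 : IsRat (f1 * b0) := by
    have : f1 * b0 = f1 / f0 * (f0 * b0) := by field_simp
    rw [this]
    exact h3.mul hb0
  refine ⟨⟨?_, h4⟩, ?_, h5⟩
  · have : f0 * a1 = (f0 * a1 + f1 * a0) - f1 * a0 := by ring
    rw [this]
    exact ha.sub h4
  · have : f0 * b1 = (f0 * b1 + f1 * b0) - f1 * b0 := by ring
    rw [this]
    exact hb.sub h5

/-- the rational matrix as a matrix over `K` -/
def toK (K : Type*) [Field K] (A : Matrix (Fin 2) (Fin 2) ℚ) : Matrix (Fin 2) (Fin 2) K :=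
  A.map fun q => (q : K)

theorem toK_mul (A B : Matrix (Fin 2) (Fin 2) ℚ) : toK K (A * B) = toK K A * toK K B := by
  ext i j
  simp [toK, Matrix.mul_apply]

theorem toK_vecMul (v : Fin 2 → ℚ) (A : Matrix (Fin 2) (Fin 2) ℚ) :
    Matrix.vecMul (fun i => (v i : K)) (toK K A) = fun j => ((Matrix.vecMul v A j : ℚ) : K) := by
  funext j
  simp [toK, Matrix.vecMul, dotProduct]

theorem toK_mulVec (v : Fin 2 → ℚ) (A : Matrix (Fin 2) (Fin 2) ℚ) :
    Matrix.mulVec (toK K A) (fun i => (v i : K)) = fun j => ((Matrix.mulVec A v j : ℚ) : K) := by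
  funext j
  simp [toK, Matrix.mulVec, dotProduct]

/-- the transformation matrices of a matrix with independent rows and columns are invertible -/
theorem det_ne {Λ : Submodule ℚ K} {N X : Matrix (Fin 2) (Fin 2) K} (hN : Ctr Λ N)
    (A B : Matrix (Fin 2) (Fin 2) ℚ) (h : N = toK K A * X * toK K B) :
    A.det ≠ 0 ∧ B.det ≠ 0 := by
  constructor
  · intro h0
    obtain ⟨v, hv, hv0⟩ := Matrix.exists_vecMul_eq_zero_iff.mpr h0
    have h1 : Matrix.vecMul (fun i => (v i : K)) N = 0 := by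
      rw [h, ← Matrix.vecMul_vecMul, ← Matrix.vecMul_vecMul, toK_vecMul, hv0]
      simp only [Pi.zero_apply, Rat.cast_zero]
      have : (fun _ : Fin 2 => (0 : K)) = 0 := rfl
      rw [this, Matrix.zero_vecMul, Matrix.zero_vecMul]
    have h2 := hN.rows (v 0) (v 1) (fun j => by
      have := congrFun h1 j
      simpa [Matrix.vecMul, dotProduct, Fin.sum_univ_two] using this)
    apply hv
    funext i
    fin_cases i
    · exact h2.1
    · exact h2.2
  · intro h0
    obtain ⟨v, hv, hv0⟩ := Matrix.exists_mulVec_eq_zero_iff.mpr h0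
    have h1 : Matrix.mulVec N (fun i => (v i : K)) = 0 := by
      rw [h, ← Matrix.mulVec_mulVec, toK_mulVec, hv0]
      simp only [Pi.zero_apply, Rat.cast_zero]
      have : (fun _ : Fin 2 => (0 : K)) = 0 := rfl
      rw [this, Matrix.mulVec_zero]
    have h2 := hN.cols (v 0) (v 1) (fun j => by
      have := congrFun h1 j
      simp only [Matrix.mulVec, dotProduct, Fin.sum_univ_two, Pi.zero_apply] at this
      linear_combination this)
    apply hv
    funext i
    fin_cases i
    · exact h2.1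
    · exact h2.2

/-- assembling the rational matrices -/
theorem assemble {Λ : Submodule ℚ K} {N X : Matrix (Fin 2) (Fin 2) K} (hN : Ctr Λ N)
    (L S : Fin 2 → Fin 2 → K) (hrat : ∀ i k j l, IsRat (L i k * S j l))
    (h : ∀ i j, N i j = L i 0 * X 0 0 * S j 0 + L i 0 * X 0 1 * S j 1 + L i 1 * X 1 0 * S j 0 +
      L i 1 * X 1 1 * S j 1) :
    (∃ A B : Matrix (Fin 2) (Fin 2) ℚ, N = toK K A * X * toK K B) ∧
      ∃ κ : K, κ ≠ 0 ∧ ∀ j l, IsRat (κ * S j l) := by
  have hL : ∃ i k, L i k ≠ 0 := by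
    by_contra hcon
    push Not at hcon
    apply hN.zero
    rw [h 0 0, hcon, hcon]
    ring
  have hS : ∃ j l, S j l ≠ 0 := by
    by_contra hcon
    push Not at hcon
    apply hN.zero
    rw [h 0 0, hcon, hcon]
    ring
  obtain ⟨i0, k0, hik⟩ := hL
  obtain ⟨j0, l0, hjl⟩ := hS
  choose q hq using hrat
  have hq0 : (q i0 k0 j0 l0 : K) ≠ 0 := by
    rw [hq]
    exact mul_ne_zero hik hjl
  refine ⟨⟨Matrix.of fun i k => q i k j0 l0,
    Matrix.of fun l j => q i0 k0 j l / q i0 k0 j0 l0, ?_⟩, L i0 k0, hik, fun j l => ⟨_, hq i0 k0 j l⟩⟩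
  ext i j
  have hB : ∀ j l, ((q i0 k0 j l / q i0 k0 j0 l0 : ℚ) : K) = S j l / S j0 l0 := by
    intro j l
    push_cast
    rw [hq, hq]
    field_simp
  simp only [toK, Matrix.mul_apply, Fin.sum_univ_two, Matrix.map_apply, Matrix.of_apply, hB, hq]
  rw [h i j]
  field_simp
  ring

omit [CharZero K] in
/-- a quadratic relation for a nonconstant element -/
theorem quad_zero [IsAlgClosed F] {ρ : K} (hρ : ρ ∉ Cs F K) {a b c : K} (ha : a ∈ Cs F K)
    (hb : b ∈ Cs F K) (hc : c ∈ Cs F K) (h : a + b * ρ + c * ρ ^ 2 = 0) :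
    a = 0 ∧ b = 0 ∧ c = 0 := by
  have ht := transcendental_of (F := F) hρ
  obtain ⟨a', rfl⟩ := mem_Cs.mp ha
  obtain ⟨b', rfl⟩ := mem_Cs.mp hb
  obtain ⟨c', rfl⟩ := mem_Cs.mp hc
  have h1 : Polynomial.aeval ρ (Polynomial.C a' + Polynomial.C b' * Polynomial.X +
      Polynomial.C c' * Polynomial.X ^ 2) = 0 := by
    simpa using h
  have h2 := (transcendental_iff.mp ht) _ h1
  have h3 := congrArg (fun P => Polynomial.coeff P 0) h2
  have h4 := congrArg (fun P => Polynomial.coeff P 1) h2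
  have h5 := congrArg (fun P => Polynomial.coeff P 2) h2
  simp [Polynomial.coeff_X, Polynomial.coeff_C, Polynomial.coeff_X_pow] at h3 h4 h5
  refine ⟨?_, ?_, ?_⟩ <;> simp_all

/-- **Rigidity.** -/
theorem rigid [IsAlgClosed F] {S : Submodule F K} {Λ : Submodule ℚ K} (hs : Sys S Λ)
    {M N : Matrix (Fin 2) (Fin 2) K} (hM : Ctr Λ M) (hN : Ctr Λ N) {a b c d : K}
    (ha : a ∈ Cs F K) (hb : b ∈ Cs F K) (hc : c ∈ Cs F K) (hd : d ∈ Cs F K)
    (hne : ¬ (a = 0 ∧ b = 0 ∧ c = 0 ∧ d = 0))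
    (h0 : a + b * (M 0 1 / M 0 0) + c * (N 0 1 / N 0 0) +
      d * (M 0 1 / M 0 0) * (N 0 1 / N 0 0) = 0) :
    (∃ A B : Matrix (Fin 2) (Fin 2) ℚ, A.det ≠ 0 ∧ B.det ≠ 0 ∧ N = toK K A * M * toK K B) ∧
      ∃ κ : K, κ ≠ 0 ∧ IsRat (κ * a) ∧ IsRat (κ * b) ∧ IsRat (κ * c) ∧ IsRat (κ * d) := by
  obtain ⟨hΔ, l, m, hl, hm, hN'⟩ := form hs hM hN ha hb hc hd hne h0
  have hρ := hM.slope hs
  have hσ := hM.transpose.slope hs
  simp only [Matrix.transpose_apply] at hσ
  obtain ⟨e1, e2, e3⟩ := hM.exists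
  have hx0 := hM.zero
  set ρ := M 0 1 / M 0 0 with hρd
  set σ := M 1 0 / M 0 0 with hσd
  set Δ := a * d - b * c with hΔd
  have hΔC : Δ ∈ Cs F K := (Cs F K).sub_mem ((Cs F K).mul_mem ha hd) ((Cs F K).mul_mem hb hc)
  have hs0 : -c / Δ ∈ Cs F K := (Cs F K).div_mem ((Cs F K).neg_mem hc) hΔC
  have ht0 : -d / Δ ∈ Cs F K := (Cs F K).div_mem ((Cs F K).neg_mem hd) hΔC
  have hs1 : a / Δ ∈ Cs F K := (Cs F K).div_mem ha hΔC
  have ht1 : b / Δ ∈ Cs F K := (Cs F K).div_mem hb hΔC
  let s : Fin 2 → K := ![-c / Δ, a / Δ]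
  let t : Fin 2 → K := ![-d / Δ, b / Δ]
  have hsC : ∀ j, s j ∈ Cs F K := fun j => by fin_cases j <;> assumption
  have htC : ∀ j, t j ∈ Cs F K := fun j => by fin_cases j <;> assumption
  have hNN : ∀ i j, N i j = M 0 0 * (l i + m i * σ) * (s j + t j * ρ) := by
    intro i j
    fin_cases j
    · exact (hN' i).1
    · exact (hN' i).2
  -- the last step for the constants
  have hfin : (∃ κ : K, κ ≠ 0 ∧ ∀ j (k : Fin 2), IsRat (κ * (![s j, t j] : Fin 2 → K) k)) →
      ∃ κ : K, κ ≠ 0 ∧ IsRat (κ * a) ∧ IsRat (κ * b) ∧ IsRat (κ * c) ∧ IsRat (κ * d) := by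
    rintro ⟨κ, hκ, h⟩
    refine ⟨κ / Δ, div_ne_zero hκ hΔ, ?_, ?_, ?_, ?_⟩
    · have := h 1 0
      have h1 : κ / Δ * a = κ * (a / Δ) := by ring
      rw [h1]; exact this
    · have := h 1 1
      have h1 : κ / Δ * b = κ * (b / Δ) := by ring
      rw [h1]; exact this
    · have := (h 0 0).neg
      have h1 : κ / Δ * c = -(κ * (-c / Δ)) := by ring
      rw [h1]; exact this
    · have := (h 0 1).neg
      have h1 : κ / Δ * d = -(κ * (-d / Δ)) := by ring
      rw [h1]; exact this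
  by_cases hdep : ∃ q : Fin 4 → ℚ, (∃ i, q i ≠ 0) ∧
      ∑ i, (q i : K) * (![M 0 0, M 0 1, M 1 0, M 1 1] : Fin 4 → K) i = 0
  · -- the entries of `M` are linearly dependent
    obtain ⟨q, ⟨i0, hi0⟩, hq⟩ := hdep
    rw [Fin.sum_univ_four] at hq
    simp only [Matrix.cons_val_zero, Matrix.cons_val_one, Matrix.cons_val] at hq
    have hrel : (q 0 : K) + q 1 * ρ + q 2 * σ + q 3 * ρ * σ = 0 := by
      have : M 0 0 * ((q 0 : K) + q 1 * ρ + q 2 * σ + q 3 * ρ * σ) = 0 := by
        rw [← hq, e3, e1, e2]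
        have hρ1 : M 0 1 / M 0 0 = ρ := rfl
        have hσ1 : M 1 0 / M 0 0 = σ := rfl
        ring
      exact (mul_eq_zero.mp this).resolve_left hx0
    have hqne : ¬ ((q 0 : K) = 0 ∧ (q 1 : K) = 0 ∧ (q 2 : K) = 0 ∧ (q 3 : K) = 0) := by
      rintro ⟨h0, h1, h2, h3⟩
      apply hi0
      fin_cases i0
      · exact_mod_cast h0
      · exact_mod_cast h1
      · exact_mod_cast h2
      · exact_mod_cast h3
    have hg : (q 2 : K) + q 3 * ρ ≠ 0 := by
      intro hg
      obtain ⟨h2, h3⟩ := lin_zero hρ (rat_mem_Cs _) (rat_mem_Cs _) hg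
      have h4 : (q 0 : K) + q 1 * ρ = 0 := by
        rw [h2, h3] at hrel
        linear_combination hrel
      obtain ⟨h0, h1⟩ := lin_zero hρ (rat_mem_Cs _) (rat_mem_Cs _) h4
      exact hqne ⟨h0, h1, h2, h3⟩
    have hδ : (q 3 : K) * q 0 - q 1 * q 2 ≠ 0 := by
      intro hδ
      have h4 : ((q 2 : K) + q 3 * ρ) * (q 0 + q 2 * σ) = 0 := by
        linear_combination (q 2 : K) * hrel + ρ * hδ
      have h5 : ((q 2 : K) + q 3 * ρ) * (q 1 + q 3 * σ) = 0 := by
        linear_combination (q 3 : K) * hrel - hδ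
      obtain ⟨h6, h7⟩ := lin_zero hσ (rat_mem_Cs _) (rat_mem_Cs _)
        ((mul_eq_zero.mp h4).resolve_left hg)
      obtain ⟨h8, h9⟩ := lin_zero hσ (rat_mem_Cs _) (rat_mem_Cs _)
        ((mul_eq_zero.mp h5).resolve_left hg)
      exact hqne ⟨h6, h8, h7, h9⟩
    set δ : ℚ := q 3 * q 0 - q 1 * q 2 with hδd
    have hδK : (δ : K) = (q 3 : K) * q 0 - q 1 * q 2 := by rw [hδd]; push_cast; ring
    have hδ0 : (δ : K) ≠ 0 := by rw [hδK]; exact hδ
    let Ci : Matrix (Fin 2) (Fin 2) ℚ := !![-q 1 / δ, -q 3 / δ; q 0 / δ, q 2 / δ]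
    let z : K := (-(q 1 : K) * M 0 0 - q 3 * M 1 0) / δ
    have hzg : z * (q 2 + q 3 * ρ) = M 0 0 := by
      show (-(q 1 : K) * M 0 0 - q 3 * M 1 0) / δ * (q 2 + q 3 * ρ) = M 0 0
      rw [e2, div_mul_eq_mul_div, div_eq_iff hδ0, hδK]
      linear_combination (-(q 3 : K)) * M 0 0 * hrel
    have hz1 : (-(q 1 : K) * M 0 1 - q 3 * M 1 1) / δ = z * ρ := by
      show _ = (-(q 1 : K) * M 0 0 - q 3 * M 1 0) / δ * ρ
      rw [e1, e2, e3]
      ring
    have hz2 : ((q 0 : K) * M 0 0 + q 2 * M 1 0) / δ = z * ρ := by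
      have key : (q 0 : K) * M 0 0 + q 2 * M 1 0 = (-(q 1 : K) * M 0 0 - q 3 * M 1 0) * ρ := by
        linear_combination M 0 0 * hrel + (q 2 + q 3 * ρ) * e2
      rw [key]
      show _ = (-(q 1 : K) * M 0 0 - q 3 * M 1 0) / δ * ρ
      ring
    have hz3 : ((q 0 : K) * M 0 1 + q 2 * M 1 1) / δ = z * ρ ^ 2 := by
      have : ((q 0 : K) * M 0 1 + q 2 * M 1 1) / δ = ((q 0 : K) * M 0 0 + q 2 * M 1 0) / δ * ρ := by
        rw [e1, e2, e3]
        ring
      rw [this, hz2]
      ring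
    let X : Matrix (Fin 2) (Fin 2) K := !![z, z * ρ; z * ρ, z * ρ ^ 2]
    have hX : X = toK K Ci * M := by
      ext i j
      fin_cases i <;> fin_cases j
      · simp only [X, Ci, toK, Matrix.mul_apply, Fin.sum_univ_two]
        simp
        show (-(q 1 : K) * M 0 0 - q 3 * M 1 0) / δ = _
        ring
      · simp only [X, Ci, toK, Matrix.mul_apply, Fin.sum_univ_two]
        simp
        rw [← hz1]
        ring
      · simp only [X, Ci, toK, Matrix.mul_apply, Fin.sum_univ_two]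
        simp
        rw [← hz2]
        ring
      · simp only [X, Ci, toK, Matrix.mul_apply, Fin.sum_univ_two]
        simp
        rw [← hz3]
        ring
    have hz0 : z ≠ 0 := by
      intro h
      rw [h, zero_mul] at hzg
      exact hx0 hzg.symm
    have hrs : ∀ (r : ℚ) (x : K), x ∈ Λ → (r : K) * x ∈ Λ := by
      intro r x hx
      have := Λ.smul_mem r hx
      rwa [Rat.smul_def] at this
    have hXΛ : ∀ i j, X i j ∈ Λ := by
      intro i j
      rw [hX]
      simp only [toK, Matrix.mul_apply, Fin.sum_univ_two, Matrix.map_apply]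
      exact Λ.add_mem (hrs _ _ (hM.mem _ _)) (hrs _ _ (hM.mem _ _))
    let L : Fin 2 → Fin 2 → K := fun i => ![l i * q 2 - m i * q 0, l i * q 3 - m i * q 1]
    have hLC : ∀ i k, L i k ∈ Cs F K := by
      intro i k
      fin_cases k
      · exact (Cs F K).sub_mem ((Cs F K).mul_mem (hl i) (rat_mem_Cs _))
          ((Cs F K).mul_mem (hm i) (rat_mem_Cs _))
      · exact (Cs F K).sub_mem ((Cs F K).mul_mem (hl i) (rat_mem_Cs _))
          ((Cs F K).mul_mem (hm i) (rat_mem_Cs _))
    have hNz : ∀ i j, N i j = z * (L i 0 + L i 1 * ρ) * (s j + t j * ρ) := by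
      intro i j
      have h1 : M 0 0 * (l i + m i * σ) = z * (L i 0 + L i 1 * ρ) := by
        show _ = z * ((l i * q 2 - m i * q 0) + (l i * q 3 - m i * q 1) * ρ)
        linear_combination (-(l i + m i * σ)) * hzg + z * m i * hrel
      rw [hNN i j, h1]
    have hco : ∀ i j, IsRat (L i 0 * s j) ∧ IsRat (L i 0 * t j + L i 1 * s j) ∧
        IsRat (L i 1 * t j) := by
      intro i j
      have h1 := rat_coord hs (n := 3) ![z, z * ρ, z * ρ ^ 2]
        (fun k => by
          fin_cases k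
          · exact hXΛ 0 0
          · exact hXΛ 0 1
          · exact hXΛ 1 1)
        (fun γ hγ h => by
          rw [Fin.sum_univ_three] at h
          simp only [Matrix.cons_val_zero, Matrix.cons_val_one, Matrix.cons_val] at h
          have h2 : γ 0 + γ 1 * ρ + γ 2 * ρ ^ 2 = 0 := by
            have : z * (γ 0 + γ 1 * ρ + γ 2 * ρ ^ 2) = 0 := by linear_combination h
            exact (mul_eq_zero.mp this).resolve_left hz0
          obtain ⟨h3, h4, h5⟩ := quad_zero hρ (hγ 0) (hγ 1) (hγ 2) h2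
          intro k
          fin_cases k
          · exact h3
          · exact h4
          · exact h5)
        (hN.mem i j) ![L i 0 * s j, L i 0 * t j + L i 1 * s j, L i 1 * t j]
        (fun k => by
          fin_cases k
          · exact (Cs F K).mul_mem (hLC _ _) (hsC _)
          · exact (Cs F K).add_mem ((Cs F K).mul_mem (hLC _ _) (htC _))
              ((Cs F K).mul_mem (hLC _ _) (hsC _))
          · exact (Cs F K).mul_mem (hLC _ _) (htC _))
        (by
          rw [Fin.sum_univ_three]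
          simp only [Matrix.cons_val_zero, Matrix.cons_val_one, Matrix.cons_val]
          rw [hNz i j]
          ring)
      exact ⟨h1 0, h1 1, h1 2⟩
    have hLne : ∀ i, L i 0 ≠ 0 ∨ L i 1 ≠ 0 := by
      intro i
      by_contra hcon
      push Not at hcon
      have h1 : ∀ j, N i j = 0 := by
        intro j
        rw [hNz i j, hcon.1, hcon.2]
        ring
      fin_cases i
      · exact hN.zero (h1 0)
      · have := (hN.rows 0 1 (fun j => by
          have := h1 j
          simp only [Rat.cast_zero, zero_mul, Rat.cast_one, one_mul, zero_add]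
          exact this)).2
        exact one_ne_zero this
    have hrat : ∀ i k j l', IsRat (L i k * (![s j, t j] : Fin 2 → K) l') := by
      intro i
      have h1 := split_rat (f0 := L i 0) (f1 := L i 1) (a0 := s 0) (a1 := t 0) (b0 := s 1)
        (b1 := t 1) (by
          show -c / Δ * (b / Δ) - -d / Δ * (a / Δ) ≠ 0
          have : -c / Δ * (b / Δ) - -d / Δ * (a / Δ) = 1 / Δ := by
            field_simp
            ring
          rw [this]
          exact one_div_ne_zero hΔ) (hLne i) (hco i 0).1 (hco i 0).2.1 (hco i 0).2.2 (hco i 1).1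
          (hco i 1).2.1 (hco i 1).2.2
      intro k j l'
      fin_cases k <;> fin_cases j <;> fin_cases l'
      · exact (hco i 0).1
      · exact h1.1.1
      · exact (hco i 1).1
      · exact h1.2.1
      · exact h1.1.2
      · exact (hco i 0).2.2
      · exact h1.2.2
      · exact (hco i 1).2.2
    obtain ⟨⟨A, B, hAB⟩, hκ⟩ := assemble (X := X) hN L (fun j => ![s j, t j]) hrat (fun i j => by
      rw [hNz i j]
      simp only [X, Matrix.cons_val_zero, Matrix.cons_val_one, Matrix.of_apply, Matrix.cons_val',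
        Matrix.cons_val_fin_one]
      ring)
    have hAB' : N = toK K (A * Ci) * M * toK K B := by
      rw [toK_mul, Matrix.mul_assoc (toK K A), ← hX]
      exact hAB
    have hd' := det_ne hN (A * Ci) B hAB'
    exact ⟨⟨A * Ci, B, hd'.1, hd'.2, hAB'⟩, hfin hκ⟩
  · -- the entries of `M` are linearly independent
    have hind : ∀ γ : Fin 4 → K, (∀ i, γ i ∈ Cs F K) →
        ∑ i, γ i * (![M 0 0, M 0 1, M 1 0, M 1 1] : Fin 4 → K) i = 0 → ∀ i, γ i = 0 := by
      intro γ hγ h i
      by_contra hne'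
      exact hdep (rat_dep hs _ (fun k => by fin_cases k <;> exact hM.mem _ _) γ hγ h ⟨i, hne'⟩)
    have hco : ∀ i j, IsRat (l i * s j) ∧ IsRat (l i * t j) ∧ IsRat (m i * s j) ∧
        IsRat (m i * t j) := by
      intro i j
      have h1 := rat_coord hs (n := 4) ![M 0 0, M 0 1, M 1 0, M 1 1]
        (fun k => by fin_cases k <;> exact hM.mem _ _) hind (hN.mem i j)
        ![l i * s j, l i * t j, m i * s j, m i * t j]
        (fun k => by
          fin_cases k
          · exact (Cs F K).mul_mem (hl _) (hsC _)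
          · exact (Cs F K).mul_mem (hl _) (htC _)
          · exact (Cs F K).mul_mem (hm _) (hsC _)
          · exact (Cs F K).mul_mem (hm _) (htC _))
        (by
          rw [Fin.sum_univ_four]
          simp only [Matrix.cons_val_zero, Matrix.cons_val_one, Matrix.cons_val]
          rw [hNN i j]
          linear_combination (-(l i * t j)) * e1 - m i * s j * e2 - m i * t j * e3)
      exact ⟨h1 0, h1 1, h1 2, h1 3⟩
    obtain ⟨⟨A, B, hAB⟩, hκ⟩ := assemble (X := M) hN (fun i => ![l i, m i])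
      (fun j => ![s j, t j]) (fun i k j l' => by
        fin_cases k <;> fin_cases l'
        · exact (hco i j).1
        · exact (hco i j).2.1
        · exact (hco i j).2.2.1
        · exact (hco i j).2.2.2) (fun i j => by
      rw [hNN i j]
      simp only [Matrix.cons_val_zero, Matrix.cons_val_one]
      linear_combination (-(l i * t j)) * e1 - m i * s j * e2 - m i * t j * e3)
    have hd' := det_ne hN A B hAB
    exact ⟨⟨A, B, hd'.1, hd'.2, hAB⟩, hfin hκ⟩

end Pool.Agent.U979.RG
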