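import Pool.Agent.U979.RG.Fin
import Pool.Agent.U979.GX.Padic

/-!
# Rigidity: the `p`-adic logarithm
-/

set_option autoImplicit false

namespace Pool.Agent.U979.RG

open Pool.Agent.U979.GX
open Pool.Agent.W254.PA (LtE logs)
open Pool.Agent.W245.PB (IsIwasawaLog)

variable {p : ℕ} [hp : Fact p.Prime] {L : PadicAlgCl p → PadicAlgCl p}

theorem L_one (hL : IsIwasawaLog p L) : L 1 = 0 := by
  have := hL.mul 1 1 one_ne_zero one_ne_zero
  rw [mul_one] at this
  linear_combination -this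

theorem L_pow (hL : IsIwasawaLog p L) {x : PadicAlgCl p} (hx : x ≠ 0) (n : ℕ) :
    L (x ^ n) = n * L x := by
  induction n with
  | zero => rw [pow_zero, L_one hL]; simp
  | succ n ih =>
    rw [pow_succ, hL.mul _ _ (pow_ne_zero _ hx) hx, ih]
    push_cast
    ring

theorem L_inv (hL : IsIwasawaLog p L) {x : PadicAlgCl p} (hx : x ≠ 0) : L x⁻¹ = -L x := by
  have := hL.mul x x⁻¹ hx (inv_ne_zero hx)
  rw [mul_inv_cancel₀ hx, L_one hL] at this
  linear_combination -this

/-- the logarithms of algebraic numbers -/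
def logP (hL : IsIwasawaLog p L) : Submodule ℚ (PadicAlgCl p) where
  carrier := {z | ∃ α : PadicAlgCl p, α ≠ 0 ∧ IsAlgebraic ℚ α ∧ z = L α}
  add_mem' := by
    rintro a b ⟨α, hα, hαa, rfl⟩ ⟨β, hβ, hβa, rfl⟩
    exact ⟨α * β, mul_ne_zero hα hβ, hαa.mul hβa, (hL.mul _ _ hα hβ).symm⟩
  zero_mem' := ⟨1, one_ne_zero, isAlgebraic_one, (L_one hL).symm⟩
  smul_mem' := by
    rintro q z ⟨α, hα, hαa, rfl⟩
    obtain ⟨γ, hγ, hγa, hγL⟩ : ∃ γ : PadicAlgCl p, γ ≠ 0 ∧ IsAlgebraic ℚ γ ∧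
        L γ = q.num * L α := by
      rcases Int.eq_nat_or_neg q.num with ⟨n, h | h⟩
      · refine ⟨α ^ n, pow_ne_zero _ hα, hαa.pow n, ?_⟩
        rw [L_pow hL hα, h]
        push_cast
        ring
      · refine ⟨(α ^ n)⁻¹, inv_ne_zero (pow_ne_zero _ hα), (hαa.pow n).inv, ?_⟩
        rw [L_inv hL (pow_ne_zero _ hα), L_pow hL hα, h]
        push_cast
        ring
    obtain ⟨β, hβ⟩ := IsAlgClosed.exists_pow_nat_eq γ q.den_pos
    have hβ0 : β ≠ 0 := by
      rintro rfl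
      rw [zero_pow q.den_pos.ne'] at hβ
      exact hγ hβ.symm
    refine ⟨β, hβ0, IsAlgebraic.of_pow q.den_pos (by rw [hβ]; exact hγa), ?_⟩
    have h1 := L_pow hL hβ0 q.den
    rw [hβ, hγL] at h1
    have hd : (q.den : PadicAlgCl p) ≠ 0 := by exact_mod_cast q.den_pos.ne'
    have h3 : ((q * q.den : ℚ) : PadicAlgCl p) = ((q.num : ℚ) : PadicAlgCl p) := by
      rw [Rat.mul_den_eq_num]
    push_cast at h3
    rw [Rat.smul_def]
    apply mul_left_cancel₀ hd
    rw [← h1, ← h3]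
    ring

theorem sys_padic (hL : IsIwasawaLog p L) :
    Sys (F := algebraicClosure ℚ (PadicAlgCl p)) (LtE (logs L)) (logP hL) where
  six := six_padic hL
  sub := by
    rintro x ⟨α, hα, hαa, rfl⟩
    exact Submodule.subset_span (Or.inr ⟨α, hα, hαa, rfl⟩)
  baker := fun n v hv hli c hc h0 => by
    choose α hα hαa hαL using hv
    have h1 := Pool.Agent.W245.PB.brumer hL α hα hαa (by
      have : (fun i => L (α i)) = v := funext fun i => (hαL i).symm
      rw [this]; exact hli) 0 isAlgebraic_zero c (fun i => mem_Cs_padic.mp (hc i)) (by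
      rw [zero_add, ← h0]
      exact Finset.sum_congr rfl fun i _ => by rw [hαL i])
    exact h1.2

end Pool.Agent.U979.RG
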